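import Pool.Agent.Lib.MP_00590d_ag.All

/-!
A nonzero stable torsion class in the image of the integral cycle map of the moduli stack of curves.
The definitions are in `Pool/Agent/Lib/MP_00590d_ag/Groups.lean` (surface groups, mapping class
groups) and `Pool/Agent/Lib/MP_00590d_ag/Statement.lean` (cochains, quasi-projective varieties,
torsors, families of curves, `AH^k`).
-/

set_option autoImplicit false

namespace Pool.Agent.Results.MP_00590d_ag.StableTorsionClass

open MP590

theorem result :
    ∃ (cp : ∀ g : ℕ, GamB g → Gam g) (st : ∀ g : ℕ, GamB g → Gam (g + 1))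
      (x : ∀ g : ℕ, (Fin (3 + 2) → Gam g) → ℤ),
      -- `cp g` and `st g` are the homomorphisms from the mapping class group `GamB g` of the
      -- surface of genus `g` with one boundary component given by gluing a disc, resp. a torus
      -- with one boundary component
      (∀ g, IsCap (cp g)) ∧ (∀ g, IsStab (st g)) ∧
      -- `x g` is a homogeneous cocycle of degree 4 on the mapping class group `Gam g`
      (∀ g, IsCocycle (x g)) ∧
      -- its class in `H⁴(Gam g; ℤ)` is killed by 3
      (∀ g, IsCobd fun y => 3 * x g y) ∧
      -- the classes of `x g` and `x (g + 1)` have the same pull back to `GamB g`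
      (∀ g, IsCobd fun y => pull (cp g) (x g) y - pull (st g) (x (g + 1)) y) ∧
      -- the class of `x g` is not zero
      (∀ g, 1 ≤ g → ¬ IsCobd (x g)) ∧
      -- the class of `x g` is in the image `AH²(𝓜_g)` of the integral cycle map
      (∀ g, 2 ≤ g → InAH 2 (x g)) ∧
      -- more generally: for arbitrary torsors over arbitrary quasi-projective varieties
      ∀ (g : ℕ) (L : Torsor g), DiesOff 2 L (x g) :=
  goal

end Pool.Agent.Results.MP_00590d_ag.StableTorsionClass
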